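import Pool.Agent.R155.IrTree

/-! For every tree with at least two vertices the broadcast irredundance number is at most the
irredundance number. -/

set_option autoImplicit false

namespace Pool.Agent.Results.MP_f42b44_co.IrbLeIr

open Pool.Agent.R155.IrTree

/-- For every finite tree `T` with at least two vertices, `ir_b(T) ≤ ir(T)`; more precisely
`ir_b(T) ≤ γ_b(T) ≤ ir(T)`, where `γ_b` is the broadcast domination number. All three numbers are
attained. -/
theorem result : ∀ (V : Type) [Fintype V] (T : SimpleGraph V), T.IsTree →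
    2 ≤ Fintype.card V →
    irb T ≤ ir T ∧ irb T ≤ gammab T ∧ gammab T ≤ ir T ∧
      (∃ S : Finset V, MaxIrrSet T S ∧ S.card = ir T) ∧
      (∃ f : V → ℕ, MaxIrrB T f ∧ cost f = irb T) ∧
      (∃ f : V → ℕ, DomB T f ∧ cost f = gammab T) := by
  intro V _ T hT h2
  obtain ⟨h3, h4, h5, h6, h7⟩ := main hT h2
  exact ⟨h6.trans h7, h6, h7, h3, h4, h5⟩

end Pool.Agent.Results.MP_f42b44_co.IrbLeIr
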